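import Pool.Agent.Work.MP_5c4cbf_co.TAsym2

/-!
`k*(n)` is the largest `k` such that every maximal intersecting family of subsets of an
`n`-element set shatters some matching of size `k`. We show that
`⌊n/3⌋ ≤ k*(n)` for all `n ≥ 1` and `k*(n) ≤ n/3 + 72 √(n log n)` for all `n ≥ 10^9`;
in particular `k*(n)/n` tends to `1/3`.
-/

set_option autoImplicit false

open Filter Topology

namespace Pool.Agent.Results.MP_5c4cbf_co.Asymptotic

open Pool.Agent.Work.MP_5c4cbf_co

theorem limit : Tendsto (fun n : ℕ => (kStar n : ℝ) / n) atTop (𝓝 (1 / 3)) := by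
  have hlow : Tendsto (fun n : ℕ => (1 / 3 : ℝ) - 1 / n) atTop (𝓝 (1 / 3)) := by
    have := (tendsto_const_nhds (x := (1 / 3 : ℝ)) (f := atTop)).sub
      (tendsto_one_div_atTop_nhds_zero_nat (𝕜 := ℝ))
    simpa using this
  have hlog : Tendsto (fun n : ℕ => Real.log n / n) atTop (𝓝 0) := by
    have h1 : Tendsto (fun x : ℝ => Real.log x / x) atTop (𝓝 0) :=
      Real.isLittleO_log_id_atTop.tendsto_div_nhds_zero
    exact h1.comp tendsto_natCast_atTop_atTop
  have hup : Tendsto (fun n : ℕ => (1 / 3 : ℝ) + 72 * Real.sqrt (Real.log n / n)) atTop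
      (𝓝 (1 / 3)) := by
    have h1 : Tendsto (fun n : ℕ => Real.sqrt (Real.log n / n)) atTop (𝓝 (Real.sqrt 0)) :=
      (Real.continuous_sqrt.tendsto 0).comp hlog
    rw [Real.sqrt_zero] at h1
    have h2 := (tendsto_const_nhds (x := (1 / 3 : ℝ)) (f := atTop)).add (h1.const_mul 72)
    simpa using h2
  refine tendsto_of_tendsto_of_tendsto_of_le_of_le' hlow hup ?_ ?_
  · filter_upwards [eventually_ge_atTop 1] with n hn
    have hn0 : (0 : ℝ) < n := by exact_mod_cast hn
    have h1 := lower hn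
    have h2 : n ≤ 3 * kStar n + 3 := by omega
    have h3 : (n : ℝ) ≤ 3 * kStar n + 3 := by exact_mod_cast h2
    rw [le_div_iff₀ hn0]
    have h4 : ((1 : ℝ) / 3 - 1 / n) * n = n / 3 - 1 := by field_simp
    rw [h4]
    linarith
  · filter_upwards [eventually_gt_atTop (2 ^ 29)] with n hn
    have hn1 : 0 < n := lt_trans (by norm_num) hn
    have hn0 : (0 : ℝ) < n := by exact_mod_cast hn1
    have h1 := kStar_le_sqrt n hn
    rw [div_le_iff₀ hn0]
    have h2 : Real.sqrt (Real.log n / n) * n = Real.sqrt (n * Real.log n) := by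
      have h3 : (n : ℝ) = Real.sqrt ((n : ℝ) ^ 2) := (Real.sqrt_sq hn0.le).symm
      have h4 : Real.sqrt (n * Real.log n) = Real.sqrt ((Real.log n / n) * (n : ℝ) ^ 2) := by
        congr 1
        field_simp
      rw [h4, Real.sqrt_mul' _ (by positivity), Real.sqrt_sq hn0.le]
    have h3 : ((1 / 3 : ℝ) + 72 * Real.sqrt (Real.log n / n)) * n =
        n / 3 + 72 * (Real.sqrt (Real.log n / n) * n) := by ring
    rw [h3, h2]
    exact h1

/-- `⌊n/3⌋ ≤ k*(n)` for all `n ≥ 1`; `k*(n) ≤ n/3 + 72 √(n log n)` for all `n ≥ 10^9`; hence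
`k*(n)/n → 1/3`. -/
theorem result :
    (∀ n : ℕ, 1 ≤ n → n / 3 ≤ kStar n) ∧
    (∀ n : ℕ, 10 ^ 9 ≤ n → (kStar n : ℝ) ≤ (n : ℝ) / 3 + 72 * Real.sqrt (n * Real.log n)) ∧
    Tendsto (fun n : ℕ => (kStar n : ℝ) / n) atTop (𝓝 (1 / 3)) :=
  ⟨fun _ hn => lower hn,
    fun n hn => kStar_le_sqrt n (lt_of_lt_of_le (by norm_num) hn), limit⟩

end Pool.Agent.Results.MP_5c4cbf_co.Asymptotic
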